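import Mathlib

set_option autoImplicit false

namespace Pool.Agent.Results.MP_49314d_al.NoUniversal

/-- A group is right-orderable if it has a total order with `x ≤ y → x * z ≤ y * z`. -/
def RightOrderable (G : Type) [Group G] : Prop :=
  ∃ _ : LinearOrder G, ∀ x y z : G, x ≤ y → x * z ≤ y * z

/-- subgroups of the group of order automorphisms of a countable chain are right-orderable -/
lemma rightOrderable_of_embed {G Ω : Type} [Group G] [LinearOrder Ω] [Countable Ω] [Nonempty Ω]
    (F : G →* (Ω ≃o Ω)) (hF : Function.Injective F) : RightOrderable G := by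
  classical
  obtain ⟨e, he⟩ := exists_surjective_nat Ω
  let Ψ : G → Lex (ℕ → Ω) := fun g => toLex fun n => F g⁻¹ (e n)
  have hΨ : Function.Injective Ψ := by
    intro g h hgh
    have h1 : F g⁻¹ = F h⁻¹ := by
      ext x
      obtain ⟨n, rfl⟩ := he x
      exact congrFun (toLex.injective hgh) n
    exact inv_injective (hF h1)
  refine ⟨LinearOrder.lift' Ψ hΨ, fun x y z hxy => ?_⟩
  have hxy' : Ψ x ≤ Ψ y := hxy
  show Ψ (x * z) ≤ Ψ (y * z)
  rcases hxy'.lt_or_eq with h | h
  · obtain ⟨i, hi1, hi2⟩ := h
    refine le_of_lt ⟨i, fun j hj => ?_, ?_⟩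
    · have h1 : F x⁻¹ (e j) = F y⁻¹ (e j) := hi1 j hj
      show F (x * z)⁻¹ (e j) = F (y * z)⁻¹ (e j)
      rw [mul_inv_rev, mul_inv_rev, map_mul, map_mul, RelIso.mul_apply, RelIso.mul_apply, h1]
    · have h1 : F x⁻¹ (e i) < F y⁻¹ (e i) := hi2
      show F (x * z)⁻¹ (e i) < F (y * z)⁻¹ (e i)
      rw [mul_inv_rev, mul_inv_rev, map_mul, map_mul, RelIso.mul_apply, RelIso.mul_apply]
      exact (F z⁻¹).lt_iff_lt.mpr h1
  · rw [hΨ h]

/-- the countable chain -/
abbrev Om : Type := ℤ ×ₗ ℚ

/-- an order automorphism acting on the blocks -/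
def blocks (φ : ℤ → (ℚ ≃o ℚ)) : Om ≃o Om where
  toFun x := toLex ((ofLex x).1, φ (ofLex x).1 (ofLex x).2)
  invFun x := toLex ((ofLex x).1, (φ (ofLex x).1).symm (ofLex x).2)
  left_inv x := by simp
  right_inv x := by simp
  map_rel_iff' {x y} := by
    simp only [Equiv.coe_fn_mk, Prod.Lex.le_iff, ofLex_toLex]
    constructor
    · rintro (h | ⟨h1, h2⟩)
      · exact Or.inl h
      · refine Or.inr ⟨h1, ?_⟩
        rw [h1] at h2
        exact (φ _).le_iff_le.mp h2
    · rintro (h | ⟨h1, h2⟩)
      · exact Or.inl h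
      · refine Or.inr ⟨h1, ?_⟩
        rw [h1]
        exact (φ _).le_iff_le.mpr h2

/-- the shift of the blocks -/
def shift : Om ≃o Om where
  toFun x := toLex ((ofLex x).1 + 1, (ofLex x).2)
  invFun x := toLex ((ofLex x).1 - 1, (ofLex x).2)
  left_inv x := by simp
  right_inv x := by simp
  map_rel_iff' {x y} := by
    simp only [Equiv.coe_fn_mk, Prod.Lex.le_iff, ofLex_toLex]
    constructor
    · rintro (h | ⟨h1, h2⟩)
      · exact Or.inl (by linarith)
      · exact Or.inr ⟨by linarith, h2⟩
    · rintro (h | ⟨h1, h2⟩)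
      · exact Or.inl (by linarith)
      · exact Or.inr ⟨by linarith, h2⟩

lemma shift_apply (n : ℤ) (q : ℚ) : shift (toLex (n, q)) = toLex (n + 1, q) := rfl

lemma shift_inv_apply (n : ℤ) (q : ℚ) : shift⁻¹ (toLex (n, q)) = toLex (n - 1, q) := rfl

lemma blocks_apply (φ : ℤ → (ℚ ≃o ℚ)) (n : ℤ) (q : ℚ) :
    blocks φ (toLex (n, q)) = toLex (n, φ n q) := rfl

lemma shift_zpow (k : ℤ) : ∀ (n : ℤ) (q : ℚ), (shift ^ k) (toLex (n, q)) = toLex (n + k, q) := by
  induction k using Int.induction_on with
  | zero => intro n q; simp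
  | succ i ih =>
    intro n q
    rw [zpow_add_one, RelIso.mul_apply, shift_apply, ih]
    congr 2
    ring
  | pred i ih =>
    intro n q
    rw [zpow_sub_one, RelIso.mul_apply, shift_inv_apply, ih]
    congr 2
    ring

/-- translation by one -/
def fA : ℚ ≃o ℚ := OrderIso.addRight 1

/-- doubling -/
def gA : ℚ ≃o ℚ where
  toFun q := q * 2
  invFun q := q / 2
  left_inv q := by simp
  right_inv q := by simp
  map_rel_iff' {x y} := by
    simp only [Equiv.coe_fn_mk]
    constructor
    · intro h; linarith
    · intro h; linarith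

open Classical in
/-- first generator -/
noncomputable def aT (T : Set ℤ) : Om ≃o Om := blocks fun n => if n ∈ T then fA else 1

/-- second generator -/
def bE : Om ≃o Om := blocks fun n => if n = 0 then gA else 1

open Classical in
/-- conjugates of the first generator -/
lemma conj_apply (T : Set ℤ) (k n : ℤ) (q : ℚ) :
    ((shift ^ k)⁻¹ * aT T * shift ^ k) (toLex (n, q)) =
      toLex (n, (if n + k ∈ T then fA else 1 : ℚ ≃o ℚ) q) := by
  rw [RelIso.mul_apply, RelIso.mul_apply, shift_zpow, ← zpow_neg]
  unfold aT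
  rw [blocks_apply, shift_zpow]
  congr 2
  ring

lemma commute_iff (T : Set ℤ) (k : ℤ) :
    Commute ((shift ^ k)⁻¹ * aT T * shift ^ k) bE ↔ k ∉ T := by
  classical
  constructor
  · intro h hk
    have h1 := DFunLike.congr_fun h.eq (toLex ((0 : ℤ), (0 : ℚ)))
    rw [RelIso.mul_apply _ bE, RelIso.mul_apply bE, conj_apply] at h1
    unfold bE at h1
    rw [blocks_apply, blocks_apply, conj_apply] at h1
    simp [hk, fA, gA] at h1
  · intro hk
    show _ * _ = _ * _
    apply RelIso.ext
    intro x
    obtain ⟨⟨n, q⟩, rfl⟩ := toLex.surjective x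
    rw [RelIso.mul_apply _ bE, RelIso.mul_apply bE, conj_apply]
    unfold bE
    rw [blocks_apply, blocks_apply, conj_apply]
    by_cases hn : n = 0
    · subst hn
      simp [hk]
    · simp [hn]

/-- the three-generator group attached to a set of integers -/
noncomputable abbrev GT (T : Set ℤ) : Subgroup (Om ≃o Om) :=
  Subgroup.closure {aT T, bE, shift}

lemma GT_fg (T : Set ℤ) : Group.FG (GT T) := by
  exact Group.closure_finite_fg _

lemma GT_countable (T : Set ℤ) : Countable (GT T) := by
  have h1 : (FreeGroup.lift ((↑) : ({aT T, bE, shift} : Set (Om ≃o Om)) → (Om ≃o Om))).range =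
      GT T := by
    rw [FreeGroup.range_lift_eq_closure, Subtype.range_coe]
  rw [← h1]
  have : Countable (FreeGroup ({aT T, bE, shift} : Set (Om ≃o Om))) := by
    unfold FreeGroup
    infer_instance
  exact Function.Surjective.countable (MonoidHom.rangeRestrict_surjective _)

lemma Om_countable : Countable Om := Countable.of_equiv (ℤ × ℚ) toLex

lemma GT_ro (T : Set ℤ) : RightOrderable (GT T) :=
  have := Om_countable
  rightOrderable_of_embed (GT T).subtype (GT T).subtype_injective

/-- the images of the three generators determine the set -/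
lemma no_common {U : Type} [Group U] [Countable U]
    (h : ∀ T : Set ℤ, ∃ f : GT T →* U, Function.Injective f) : False := by
  choose f hf using h
  let A : (T : Set ℤ) → GT T := fun T => ⟨aT T, Subgroup.subset_closure (by simp)⟩
  let B : (T : Set ℤ) → GT T := fun T => ⟨bE, Subgroup.subset_closure (by simp)⟩
  let S : (T : Set ℤ) → GT T := fun T => ⟨shift, Subgroup.subset_closure (by simp)⟩
  let Φ : Set ℤ → U × U × U := fun T => (f T (A T), f T (B T), f T (S T))
  have key : ∀ (T : Set ℤ) (k : ℤ),
      Commute ((f T (S T) ^ k)⁻¹ * f T (A T) * f T (S T) ^ k) (f T (B T)) ↔ k ∉ T := by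
    intro T k
    rw [← commute_iff T k]
    have h1 : (f T (S T) ^ k)⁻¹ * f T (A T) * f T (S T) ^ k =
        f T ((S T ^ k)⁻¹ * A T * S T ^ k) := by
      simp only [map_mul, map_inv, map_zpow]
    rw [h1]
    constructor
    · intro h2
      have h3 : (S T ^ k)⁻¹ * A T * S T ^ k * B T = B T * ((S T ^ k)⁻¹ * A T * S T ^ k) := by
        apply hf T
        rw [map_mul (f T) _ (B T), map_mul (f T) (B T)]
        exact h2
      have h4 := congrArg (GT T).subtype h3
      simpa [Commute, SemiconjBy, A, B, S] using h4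
    · intro h2
      have h3 : (S T ^ k)⁻¹ * A T * S T ^ k * B T = B T * ((S T ^ k)⁻¹ * A T * S T ^ k) := by
        apply Subtype.ext
        simpa [Commute, SemiconjBy, A, B, S] using h2
      show _ * _ = _ * _
      rw [← map_mul (f T) _ (B T), ← map_mul (f T) (B T), h3]
  have hΦ : Function.Injective Φ := by
    intro T T' hTT
    have e1 : f T (A T) = f T' (A T') := congrArg (fun u => u.1) hTT
    have e2 : f T (B T) = f T' (B T') := congrArg (fun u => u.2.1) hTT
    have e3 : f T (S T) = f T' (S T') := congrArg (fun u => u.2.2) hTT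
    ext k
    have h1 := key T k
    have h2 := key T' k
    rw [e1, e2, e3] at h1
    exact not_iff_not.mp (h1.symm.trans h2)
  obtain ⟨g, hg⟩ := exists_injective_nat (U × U × U)
  have hj : Function.Injective (fun T : Set ℤ => ((g (Φ T) : ℕ) : ℤ)) := fun T T' h =>
    hΦ (hg (Int.ofNat_injective h))
  exact Function.cantor_injective _ hj

/-- **No universal countable right-orderable group.**  For every countable group `U` there is a
finitely generated countable right-orderable group that does not embed in `U`. -/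
theorem result : ∀ (U : Type) [Group U] [Countable U], ∃ (G : Type) (_ : Group G),
    Group.FG G ∧ Countable G ∧ RightOrderable G ∧
      ¬ ∃ f : G →* U, Function.Injective f := by
  intro U _ _
  by_contra hcon
  apply no_common (U := U)
  intro T
  by_contra hT
  exact hcon ⟨GT T, inferInstance, GT_fg T, GT_countable T, GT_ro T, hT⟩

end Pool.Agent.Results.MP_49314d_al.NoUniversal
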